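import Pool.Agent.Lib.MP_5c318e_ag.S.AFrm
import Pool.Agent.Lib.MP_5c318e_ag.S.APlu

/-! Frames together with the height one primes of each chart. -/

set_option autoImplicit false

namespace Pool.Agent.Lib.MP_5c318e_ag

open Set

variable {k F ι : Type} [Field k] [Field F] [Algebra k F] [Fintype ι] [DecidableEq ι]

/-- `Pr` is the set of height one primes of the chart `A` with coordinates `f` -/
structure PrOf (d : ι → Derivation k F F) (A : Subalgebra k F) (f : ι → F)
    (Pr : Set (ValuationSubring F)) : Prop where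
  le : ∀ O ∈ Pr, ∀ a ∈ A, a ∈ O
  adp : ∀ O ∈ Pr, ∃ (c : ι → F) (i0 : ι), Adp k O c i0 ∧
    O.valuation (Jac d c) = O.valuation (Jac d f)
  res : ∀ O ∈ Pr, ∃ i0 : ι, RIndC k O.valuation fun j : {a // a ≠ i0} => f j
  fin : ∀ x : F, {O ∈ Pr | x ∉ O}.Finite
  pur : ∀ x : F, (∀ O ∈ Pr, x ∈ O) → x ∈ A
  frac : ∀ x : F, ∃ a ∈ A, ∃ b ∈ A, b ≠ 0 ∧ x * b = a

/-- frames with the primes of each chart -/
structure Frames2 (d : ι → Derivation k F F) extends Frames d where
  Pr : Fin N → Set (ValuationSubring F)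
  pr : ∀ i, PrOf d (A i) (f i) (Pr i)

variable [CharZero k] {z : ι → F} {d : ι → Derivation k F F}

namespace PrOf

variable {A : Subalgebra k F} {f : ι → F} {Pr : Set (ValuationSubring F)}
  {O : ValuationSubring F}

omit [CharZero k] in
theorem div (h : PrOf d A f Pr) (hO : O ∈ Pr) : IsDivisorial k F O := by
  obtain ⟨c, i0, h1, -⟩ := h.adp O hO
  exact h1.divisorial

theorem regI_val (h : PrOf d A f Pr) (hO : O ∈ Pr) (m : ℕ) (φ : F) :
    RegI d m φ O ↔ O.valuation φ ≤ O.valuation (Jac d f) ^ m := by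
  obtain ⟨c, i0, h1, h2⟩ := h.adp O hO
  rw [h1.regI_iff, h2]

theorem regI_iff (h : PrOf d A f Pr) (hf : Jac d f ≠ 0) (hO : O ∈ Pr) (m : ℕ) (φ : F) :
    RegI d m φ O ↔ φ / Jac d f ^ m ∈ O := by
  rw [h.regI_val hO, div_pow_mem_iff hf]

end PrOf

theorem chart_of_etale2 (hd : Dual k z d) {A σ : Type} [CommRing A] [Algebra k A] [Algebra A F]
    [IsScalarTower k A F] [IsFractionRing A F] [Fintype σ] (g : MvPolynomial σ k →ₐ[k] A)
    (hg : g.toRingHom.Etale) : ∃ f : ι → A, Jac d (fun j => algebraMap A F (f j)) ≠ 0 ∧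
      ∃ Pr : Set (ValuationSubring F),
        PrOf d (IsScalarTower.toAlgHom k A F).range (fun j => algebraMap A F (f j)) Pr := by
  classical
  let : Algebra (MvPolynomial σ k) A := g.toRingHom.toAlgebra
  let : Algebra (MvPolynomial σ k) F := ((algebraMap A F).comp g.toRingHom).toAlgebra
  have : IsScalarTower (MvPolynomial σ k) A F := .of_algebraMap_eq' rfl
  have : Algebra.Etale (MvPolynomial σ k) A := hg
  let y : σ → F := fun j => algebraMap A F (g (MvPolynomial.X j))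
  have hy : ∀ p, algebraMap (MvPolynomial σ k) F p = MvPolynomial.aeval y p := fun p =>
    DFunLike.congr_fun (MvPolynomial.algHom_ext (f := (IsScalarTower.toAlgHom k A F).comp g)
      (g := MvPolynomial.aeval y) fun j => by rw [MvPolynomial.aeval_X]; rfl) p
  have hi : AlgebraicIndependent k y := fun p q e =>
    etale_inj (R := MvPolynomial σ k) (A := A) (F := F) (by rw [hy, hy]; exact e)
  have hb : IsTranscendenceBasis k y := hi.isTranscendenceBasis_iff_isAlgebraic.2 ⟨fun x =>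
    ((etale_alg (R := MvPolynomial σ k) (A := A) (F := F)).isAlgebraic x).ringHom_of_comp_eq
      (hi.aevalEquiv : MvPolynomial σ k →+* Algebra.adjoin k (range y)) (RingHom.id F)
      hi.aevalEquiv.injective (RingHom.ext fun p => (hy p).symm)⟩
  have hc : Fintype.card ι = Fintype.card σ := by
    have h1 := hd.basis.cardinalMk_eq_trdeg.trans hb.cardinalMk_eq_trdeg.symm
    rw [Cardinal.mk_fintype, Cardinal.mk_fintype] at h1
    exact_mod_cast h1
  let e := Fintype.equivOfCardEq hc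
  have hJ : Jac d (fun j => y (e j)) ≠ 0 := hd.isFr'.jac_ne (hi.comp e e.injective)
  have key : ∀ O ∈ EtPr (MvPolynomial σ k) A F, (∃ (c : ι → F) (i0 : ι), Adp k O c i0 ∧
      O.valuation (Jac d c) ≤ O.valuation (Jac d fun j => y (e j))) ∧
      ∃ i0 : ι, RIndC k O.valuation fun j : {a // a ≠ i0} => y (e j) := by
    rintro O ⟨h0, Q, hQ, h2⟩
    have h3 := etale_grp' hQ h0 h2
    have h1 : ∀ p, algebraMap (MvPolynomial σ k) F p ∈ O := fun p => h0 _
    simp only [hy] at h1 h2 h3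
    obtain ⟨i0, h4⟩ := prime_var hQ
    have h5 : RIndC k O.valuation fun j : {a // a ≠ i0} => y j := fun p hp => by
      have h6 : MvPolynomial.aeval (fun a : {a // a ≠ i0} => y a) p
          = MvPolynomial.aeval y (MvPolynomial.rename Subtype.val p) := by
        rw [MvPolynomial.aeval_rename]; rfl
      rw [h6]
      exact le_antisymm ((O.valuation_le_one_iff _).2 (h1 _))
        (not_lt.1 fun h => h4 p hp ((h2 _).1 h))
    have h6 : Fintype.card (Option {a // a ≠ i0}) = Fintype.card σ :=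
      Fintype.card_congr (Equiv.optionSubtypeNe i0)
    refine ⟨⟨_, _, (adp_option (fun h => hQ.ne_zero (hi (h.trans (map_zero _).symm)))
      ((h2 Q).2 dvd_rfl) h3 h5 (by
        rw [← hb.cardinalMk_eq_trdeg, Cardinal.mk_fintype, ← h6, Fintype.card_option])).reindex
      (Fintype.equivOfCardEq (hc.trans h6.symm)), ?_⟩, e.symm i0, h5.comp
        (fun j : {j // j ≠ e.symm i0} => ⟨e j, fun h0 => j.2 (e.eq_symm_apply.2 h0)⟩)
        fun _ _ hij => Subtype.ext (e.injective (congrArg Subtype.val hij))⟩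
    rw [jac_chain d hJ, map_mul]
    refine mul_le_of_le_one_right' ?_
    refine (val_jac_le O.valuation _ _ (fun _ => 1) (fun _ => 1) fun a b => ?_).trans (by simp)
    have h9 : ∀ j, dual d (fun j => y (e j)) b (y j) ∈ O := fun j => by
      obtain ⟨l, rfl⟩ := e.surjective j
      rw [dual_self d hJ b l]
      split_ifs
      exacts [one_mem _, zero_mem _]
    rw [one_mul, O.valuation_le_one_iff, Function.comp_apply]
    cases Fintype.equivOfCardEq (hc.trans h6.symm) a with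
    | none => exact der_aeval_mem h1 _ h9 Q
    | some j => exact h9 j
  refine ⟨fun j => g (MvPolynomial.X (e j)), hJ, EtPr (MvPolynomial σ k) A F, ?_, fun O hO => ?_,
    fun O hO => (key O hO).2, EtPr.finite,
    fun x hx => etale_purity' (R := MvPolynomial σ k) hx, fun x => ?_⟩
  · rintro O hO _ ⟨a, rfl⟩
    exact hO.1 a
  · obtain ⟨c, i0, h1, h2⟩ := (key O hO).1
    exact ⟨c, i0, h1, le_antisymm h2 (h1.jac_le d fun j => hO.1 _)⟩
  · obtain ⟨a, b, hb0, rfl⟩ := IsFractionRing.div_surjective (A := A) x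
    have := (algebraMap A F).domain_nontrivial
    have h1 : algebraMap A F b ≠ 0 := IsFractionRing.to_map_ne_zero_of_mem_nonZeroDivisors hb0
    exact ⟨_, ⟨a, rfl⟩, _, ⟨b, rfl⟩, h1, div_mul_cancel₀ _ h1⟩

/-- a chart with a generator of the top forms and its primes -/
def GoodChart2 (d : ι → Derivation k F F) (B : Subalgebra k F) : Prop :=
  B.FG ∧ ∃ f : ι → F, (∀ j, f j ∈ B) ∧ Jac d f ≠ 0 ∧ ∃ Pr, PrOf d B f Pr

theorem good_away2 (hd : Dual k z d) (A : Subalgebra k F) [IsFractionRing A F]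
    [Algebra.FiniteType k A] {g : A} (hg : g ≠ 0)
    (hs : Algebra.IsStandardSmooth k (Localization.Away g)) :
    ∃ B, GoodChart2 d B ∧ ∀ O : ValuationSubring F, (∀ a ∈ A, a ∈ O) → O.valuation (g : F) = 1 →
      ∀ b ∈ B, b ∈ O := by
  have hg' : (g : F) ≠ 0 := fun h => hg (Subtype.ext h)
  have hu : IsUnit (algebraMap A F g) := IsUnit.mk0 _ hg'
  let : Algebra (Localization.Away g) F := (IsLocalization.Away.lift g hu).toAlgebra
  have : IsScalarTower A (Localization.Away g) F :=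
    .of_algebraMap_eq fun a => (IsLocalization.Away.lift_eq g hu a).symm
  have : IsScalarTower k (Localization.Away g) F := .of_algebraMap_eq fun a => by
    rw [IsScalarTower.algebraMap_apply k A (Localization.Away g), ← IsScalarTower.algebraMap_apply,
      ← IsScalarTower.algebraMap_apply]
  have : IsFractionRing (Localization.Away g) F :=
    IsFractionRing.isFractionRing_of_isDomain_of_isLocalization (Submonoid.powers g) _ _
  obtain ⟨n, φ, h1, h2⟩ := RingHom.IsStandardSmooth.exists_etale_mvPolynomial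
    (f := algebraMap k (Localization.Away g)) (RingHom.isStandardSmooth_algebraMap.2 hs)
  obtain ⟨f, h3, h4⟩ := chart_of_etale2 hd (A := Localization.Away g)
    { φ with commutes' := fun a => DFunLike.congr_fun h1 a } h2
  refine ⟨(IsScalarTower.toAlgHom k (Localization.Away g) F).range, ⟨?_, _, fun j => ⟨f j, rfl⟩,
    h3, h4⟩, ?_⟩
  · rw [← Algebra.map_top]
    exact Algebra.FiniteType.out.map _
  · rintro O h5 h6 _ ⟨b, rfl⟩
    obtain ⟨⟨a, _, l, rfl⟩, h7⟩ := IsLocalization.surj (Submonoid.powers g) b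
    have h8 := congrArg (fun c => O.valuation (algebraMap _ F c)) h7
    simp only [map_mul, map_pow, ← IsScalarTower.algebraMap_apply] at h8
    rw [← O.valuation_le_one_iff]
    change O.valuation (algebraMap _ F b) ≤ 1
    change _ * O.valuation (g : F) ^ l = O.valuation (a : F) at h8
    rw [h6, one_pow, mul_one] at h8
    rw [h8, O.valuation_le_one_iff]
    exact h5 a a.2

theorem good_cover2 (hd : Dual k z d) (A : Subalgebra k F) [IsFractionRing A F]
    [Algebra.Smooth k A] : ∃ S : Set (Subalgebra k F), S.Finite ∧ (∀ B ∈ S, GoodChart2 d B) ∧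
      ∀ O : ValuationSubring F, (∀ a ∈ A, a ∈ O) → ∃ B ∈ S, ∀ b ∈ B, b ∈ O := by
  obtain ⟨s, hs, h1⟩ := Algebra.Smooth.exists_span_eq_top_isStandardSmooth k A
  obtain ⟨t, ht, h2⟩ := (Ideal.span_eq_top_iff_finite s).1 hs
  choose B h3 h4 using fun g : {g : A // g ∈ t ∧ g ≠ 0} => good_away2 hd A g.2.2 (h1 g (ht g.2.1))
  have : Finite {g : A // g ∈ t ∧ g ≠ 0} := (t.finite_toSet.subset fun _ h => h.1).to_subtype
  refine ⟨range B, finite_range B, forall_mem_range.2 h3, fun O hO => ?_⟩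
  have h5 : ∃ g ∈ t, O.valuation (g : F) = 1 := by
    by_contra hn
    have h6 : ∀ a ∈ Ideal.span (t : Set A), O.valuation (a : F) < 1 := fun a ha => by
      induction ha using Submodule.span_induction with
      | mem a ha =>
        exact lt_of_le_of_ne ((O.valuation_le_one_iff _).2 (hO a a.2)) fun h => hn ⟨a, ha, h⟩
      | zero => simp
      | add a b _ _ ha hb => exact O.valuation.map_add_lt ha hb
      | smul a b _ hb =>
        rw [smul_eq_mul, Subalgebra.coe_mul, map_mul]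
        exact (mul_le_of_le_one_left' ((O.valuation_le_one_iff _).2 (hO a a.2))).trans_lt hb
    simpa using h6 1 (h2 ▸ trivial)
  obtain ⟨g, hg, h6⟩ := h5
  have h7 : g ≠ 0 := fun h => by simp [h] at h6
  exact ⟨_, ⟨⟨g, hg, h7⟩, rfl⟩, h4 _ O hO h6⟩

theorem SmoothModel.frames2 (h : SmoothModel k F) (hd : Dual k z d) : Nonempty (Frames2 d) := by
  obtain ⟨N, A, h1, h2⟩ := h
  choose S h3 h4 h5 using fun i => @good_cover2 k F ι _ _ _ _ _ _ z d hd (A i) (h1 i).2 (h1 i).1
  obtain ⟨n, B, hB⟩ := (finite_iUnion h3).fin_param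
  have h6 : ∀ j, GoodChart2 d (B j) := fun j => by
    obtain ⟨i, hi⟩ := mem_iUnion.1 (hB.2.le ⟨j, rfl⟩)
    exact h4 i _ hi
  choose f h7 h8 Pr h9 using fun j => (h6 j).2
  refine ⟨⟨⟨n, B, f, fun j => (h6 j).1, h7, h8, fun j m φ hφ => (h9 j).pur _ fun O hO =>
    ((h9 j).regI_iff (h8 j) hO m φ).1 (hφ O ((h9 j).div hO)), fun O hO => ?_⟩, Pr, h9⟩⟩
  obtain ⟨i, hi⟩ := h2 O hO
  obtain ⟨C, hC, h0⟩ := h5 i O hi
  obtain ⟨j, rfl⟩ := hB.2.ge (mem_iUnion.2 ⟨i, hC⟩)
  exact ⟨j, h0⟩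

namespace Frames2

variable (Fr : Frames2 d)

/-- the Jacobian of the chart `i` -/
noncomputable abbrev J (i : Fin Fr.N) : F := Jac d (Fr.f i)

/-- a form that is regular at the primes of all charts is regular everywhere -/
theorem plu {m : ℕ} {φ : F} (h : ∀ i, ∀ O ∈ Fr.Pr i, RegI d m φ O) : Plu d m φ := fun O hO => by
  obtain ⟨j, hj⟩ := Fr.cover O hO.const
  exact ⟨Fr.f j, fun i => hj _ (Fr.mem j i), _, hj _ ((Fr.pr j).pur _ fun O' hO' =>
    ((Fr.pr j).regI_iff (Fr.ne j) hO' m φ).1 (h j O' hO')),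
    (div_mul_cancel₀ _ (pow_ne_zero m (Fr.ne j))).symm⟩

/-- a prime of the chart `i` that is not a fixed component of the system `τ` -/
def Fk {ρ : Type} (τ : ρ → F) (m : ℕ) (i : Fin Fr.N) (O : ValuationSubring F) : Prop :=
  O ∈ Fr.Pr i ∧ ∃ j, O.valuation (τ j / Fr.J i ^ m) = 1

omit [CharZero k] in
/-- common denominators in every chart -/
theorem exists_sig (s : Finset F) :
    ∃ σ : Fin Fr.N → F, ∀ i, σ i ≠ 0 ∧ σ i ∈ Fr.A i ∧ ∀ q ∈ s, σ i * q ∈ Fr.A i := by
  classical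
  have h : ∀ i, ∃ σ : F, σ ≠ 0 ∧ σ ∈ Fr.A i ∧ ∀ q ∈ s, σ * q ∈ Fr.A i := fun i => by
    choose a ha b hb h0 h1 using (Fr.pr i).frac
    refine ⟨∏ q ∈ s, b q, Finset.prod_ne_zero_iff.2 fun q _ => h0 q,
      prod_mem fun q _ => hb q, fun q hq => ?_⟩
    rw [← Finset.mul_prod_erase s b hq, mul_right_comm, mul_comm (b q), h1]
    exact mul_mem (ha q) (prod_mem fun q _ => hb q)
  choose σ hσ using h
  exact ⟨σ, hσ⟩

omit [CharZero k] in
/-- KRULL in one chart: poles along the fixed components are killed by a power of the system -/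
theorem krull {ρ : Type} [Finite ρ] {τ : ρ → F} {m : ℕ} (hτ : ∀ j, Plu d m (τ j)) (i : Fin Fr.N)
    {x : F} (hx : ∀ O, Fr.Fk τ m i O → x ∈ O) :
    ∃ N : ℕ, ∀ n, N ≤ n → ∀ j, x * (τ j / Fr.J i ^ m) ^ n ∈ Fr.A i := by
  have h1 : ∀ (O : {O ∈ Fr.Pr i | x ∉ O}) (j : ρ), ∃ N : ℕ,
      x * (τ j / Fr.J i ^ m) ^ N ∈ O.1 := fun O j => by
    obtain ⟨c, i0, hc, -⟩ := (Fr.pr i).adp O.1 O.2.1
    have h2 : O.1.valuation (τ j / Fr.J i ^ m) < 1 := lt_of_le_of_ne
      ((O.1.valuation_le_one_iff _).2 ((Fr.pr i).le _ O.2.1 _ (Fr.reg i m _ (hτ j))))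
      fun h => O.2.2 (hx _ ⟨O.2.1, j, h⟩)
    rcases eq_or_ne (τ j / Fr.J i ^ m) 0 with h0 | h0
    · exact ⟨1, by rw [h0, pow_one, mul_zero]; exact zero_mem _⟩
    have hx0 : x ≠ 0 := fun h => O.2.2 ((congrArg (· ∈ O.1) h).mpr (zero_mem _))
    obtain ⟨a, ha⟩ := hc.grp x hx0
    obtain ⟨b, hb⟩ := hc.grp _ h0
    have hp : 0 < O.1.valuation (c i0) := (Valuation.pos_iff _).2 (hc.ne_zero i0)
    have hb0 : 0 < b := by
      by_contra hn
      rw [hb] at h2
      exact h2.not_ge (one_le_zpow_of_nonpos₀ hp hc.lt.le (not_lt.1 hn))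
    refine ⟨a.natAbs, ?_⟩
    rw [← O.1.valuation_le_one_iff, map_mul, map_pow, ha, hb, ← zpow_natCast, ← zpow_mul,
      ← zpow_add₀ hp.ne']
    refine zpow_le_one₀ hp hc.lt.le ?_
    have h3 : -a ≤ (a.natAbs : ℤ) := by omega
    nlinarith [Int.natCast_nonneg a.natAbs]
  choose N hN using h1
  have : Finite {O ∈ Fr.Pr i | x ∉ O} := ((Fr.pr i).fin x).to_subtype
  obtain ⟨N0, hN0⟩ := (finite_range fun p : {O ∈ Fr.Pr i | x ∉ O} × ρ => N p.1 p.2).bddAbove
  refine ⟨N0, fun n hn j => (Fr.pr i).pur _ fun O hO => ?_⟩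
  have h2 : τ j / Fr.J i ^ m ∈ O := (Fr.pr i).le _ hO _ (Fr.reg i m _ (hτ j))
  by_cases h : x ∈ O
  · exact mul_mem h (pow_mem h2 n)
  · obtain ⟨l, rfl⟩ := Nat.exists_eq_add_of_le ((hN0 ⟨(⟨O, hO, h⟩, j), rfl⟩).trans hn)
    rw [pow_add, ← mul_assoc]
    exact mul_mem (hN ⟨O, hO, h⟩ j) (pow_mem h2 l)

omit [CharZero k] in
/-- KRULL at a valuation whose centre is not in the base locus -/
theorem krull_val {ρ : Type} [Finite ρ] {τ : ρ → F} {m : ℕ} (hτ : ∀ j, Plu d m (τ j))
    {i : Fin Fr.N} {x : F} (hx : ∀ O, Fr.Fk τ m i O → x ∈ O) {V : ValuationSubring F}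
    (hV : ∀ a ∈ Fr.A i, a ∈ V) {j : ρ} (hj : V.valuation (τ j / Fr.J i ^ m) = 1) : x ∈ V := by
  obtain ⟨N, hN⟩ := Fr.krull hτ i hx
  have h := (V.valuation_le_one_iff _).2 (hV _ (hN N le_rfl j))
  rwa [map_mul, map_pow, hj, one_pow, mul_one, V.valuation_le_one_iff] at h

end Frames2

end Pool.Agent.Lib.MP_5c318e_ag
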