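import Pool.Agent.Lib.MP_5c318e_ag.Sx.SDefs
import Pool.Agent.Lib.MP_5c318e_ag.Dm.Fr2
import Pool.Agent.Lib.MP_5c318e_ag.Np.Inf
/-! The finite family of conditions: primes at infinity and boundary primes of an atlas. -/
set_option autoImplicit false
set_option linter.unusedSectionVars false
namespace Pool.Agent.Lib.MP_5c318e_ag
open Set

/-- an element of largest value among `1` and a finite family -/
theorem exists_top_elt {M α : Type} [Field M] [Finite α] (z : α → M) (O : ValuationSubring M) :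
    ∃ l : M, l ≠ 0 ∧ l⁻¹ ∈ O ∧ (∀ a, z a / l ∈ O) ∧ (l = 1 ∨ ∃ a, l = z a) := by
  obtain ⟨o, ho⟩ := Finite.exists_max fun o : Option α => O.valuation (o.elim 1 z)
  have h1 : 1 ≤ O.valuation (o.elim 1 z) := by simpa using ho none
  refine ⟨o.elim 1 z, (Valuation.ne_zero_iff _).1 (zero_lt_one.trans_le h1).ne', ?_, fun a => ?_, ?_⟩
  · rw [← O.valuation_le_one_iff, map_inv₀]
    exact inv_le_one_of_one_le₀ h1
  · rw [← O.valuation_le_one_iff, map_div₀]
    exact div_le_one_of_le₀ (ho (some a)) zero_le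
  · cases o
    exacts [Or.inl rfl, Or.inr ⟨_, rfl⟩]

variable {ν K M : Type} [Fintype ν] [DecidableEq ν] [Field K] [Algebra ℂ K] [Field M] [Algebra ℂ M]
  [Algebra K M] [IsScalarTower ℂ K M] {d : Dat Unit K ν M}

theorem Dat.Geo.exists_cnd0 (G : d.Geo) [Finite G.No.DD] (Fr : Frames2 d.T.dx)
    (pol : G.No.DD → Prop) :
    ∃ (np : ℕ) (c : Cnd d.T.dx (G.No.DD ⊕ Fin np)), (∀ V, c.O (Sum.inl V) = V.1) ∧
      (∀ V, c.J (Sum.inl V) = G.Jd V) ∧ (∀ V, c.l (Sum.inl V) = G.No.l G.j0) ∧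
      (∀ V, pol V → c.w (Sum.inl V) = G.U.π V) ∧ (∀ V, ¬ pol V → c.w (Sum.inl V) = 1) ∧
      (∀ i, c.w (Sum.inr i) = 1) ∧ (∀ i a j, (G.ρ a * G.r j : d.T.X.O) / c.l i ∈ c.O i) ∧
      (∀ i, ∃ i1, Fr.Fk (fun j => (d.τ j : M)) d.m i1 (c.O (Sum.inr i))) ∧
      ∀ i O, Fr.Fk (fun j => (d.τ j : M)) d.m i O → (∀ a ∈ d.T.X.O, a ∈ O) ∨
        ∃ n, c.O (Sum.inr n) = O ∧ c.J (Sum.inr n) = Fr.J i ∧
          (c.l (Sum.inr n) = 1 ∨ ∃ a j, c.l (Sum.inr n) = (G.ρ a * G.r j : d.T.X.O)) := by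
  classical
  have : CharZero K := charZero_of_injective_algebraMap (algebraMap ℂ K).injective
  let S : Set (Fin Fr.N × ValuationSubring M) :=
    {x | Fr.Fk (fun j => (d.τ j : M)) d.m x.1 x.2 ∧ ¬ ∀ a ∈ d.T.X.O, a ∈ x.2}
  have hS : S.Finite := by
    refine (finite_iUnion fun i => finite_iUnion fun x : Fin G.na × Fin G.nb =>
      (finite_singleton i).prod ((Fr.pr i).fin (G.ρ x.1 * G.r x.2 : d.T.X.O))).subset ?_
    rintro ⟨i, O⟩ ⟨h1, h2⟩
    by_contra h
    simp only [mem_iUnion, not_exists] at h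
    refine h2 fun a ha => NpN.mem_of_gen G.No.gen (V := O.toSubring) (fun r => ?_)
      (fun x => not_not.1 fun hx => h i x ⟨rfl, h1.1, hx⟩) ⟨a, ha⟩
    rw [G.No.inc_eq]
    exact (Fr.pr i).le O h1.1 _ ((Fr.A i).algebraMap_mem _)
  obtain ⟨np, ⟨e⟩⟩ := @Finite.exists_equiv_fin S hS.to_subtype
  choose lz l0 l1 l2 l3 using exists_top_elt fun x : Fin G.na × Fin G.nb =>
    ((G.ρ x.1 * G.r x.2 : d.T.X.O) : M)
  have hJ : ∀ V, G.Jd V ≠ 0 := fun V => d.T.dual.isFr.jac_ne (G.U.adp V).basis.1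
  have hπ : ∀ V, G.U.π V ≠ 0 ∧ G.U.π V ∈ V.1 := fun V => by
    simpa using And.intro ((G.U.adp V).ne_zero G.j0) ((G.U.adp V).mem G.j0)
  have hd : ∀ {O : ValuationSubring M} {a b : M}, O.valuation a ≤ O.valuation b → a / b ∈ O :=
    fun h => by
      rw [← ValuationSubring.valuation_le_one_iff, map_div₀]
      exact div_le_one_of_le₀ h zero_le
  refine ⟨np,
    { O := Sum.elim (·.1) fun n => (e.symm n).1.2
      J := Sum.elim G.Jd fun n => Fr.J (e.symm n).1.1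
      l := Sum.elim (fun _ => G.No.l G.j0) fun n => lz (e.symm n).1.2
      w := Sum.elim (fun V => if pol V then G.U.π V else 1) fun _ => 1
      div := ?_, J0 := ?_, l0 := ?_, w0 := ?_, wO := ?_, lO := ?_, adp := ?_ },
    fun _ => rfl, fun _ => rfl, fun _ => rfl, fun V h => if_pos h, fun V h => if_neg h,
    fun _ => rfl, ?_, fun n => ⟨_, (e.symm n).2.1⟩, fun i O h => or_iff_not_imp_left.2 fun h' =>
      ⟨e ⟨(i, O), h, h'⟩, by simp, by simp, ?_⟩⟩
  · rintro (V | n)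
    exacts [(G.U.adp V).divisorial, (Fr.pr _).div (e.symm n).2.1.1]
  · rintro (V | n)
    exacts [hJ V, Fr.ne _]
  · rintro (V | n)
    exacts [G.No.l_ne _, l0 _]
  · rintro (V | n)
    · simp only [Sum.elim_inl]
      split_ifs
      exacts [(hπ V).1, one_ne_zero]
    · exact one_ne_zero
  · rintro (V | n)
    · simp only [Sum.elim_inl]
      split_ifs
      exacts [(hπ V).2, one_mem _]
    · exact one_mem _
  · rintro (V | n)
    · simpa using hd (a := 1) (by simpa using (V.2.one_lt G.j0).le)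
    · exact l1 _
  · rintro (V | n) f hf
    · exact hd ((G.U.adp V).jac_le _ hf)
    · obtain ⟨c, i0, h1, h2⟩ := (Fr.pr _).adp _ (e.symm n).2.1.1
      exact hd (h2 ▸ h1.jac_le _ hf)
  · rintro (V | n) a j
    · exact hd ((G.No.deg_z (a, j) V.1 V.2 G.j0).trans_eq (pow_one _))
    · exact l2 _ (a, j)
  · simpa using l3 O

end Pool.Agent.Lib.MP_5c318e_ag
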