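import Pool.Agent.Lib.MP_5c318e_ag.Dm.Fr2
import Pool.Agent.Lib.MP_5c318e_ag.Ar.Wt
import Pool.Agent.Lib.MP_5c318e_ag.S.Front

/-! Forms that are regular outside the fixed part are dominated by the function `y`. -/

set_option autoImplicit false
set_option linter.unusedSectionVars false

namespace Pool.Agent.Lib.MP_5c318e_ag

open MeasureTheory Set Filter Topology

variable {δ ν K M : Type} [Fintype δ] [DecidableEq δ] [Fintype ν] [DecidableEq ν]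
  [Field K] [Algebra ℂ K] [Field M] [Algebra ℂ M] [Algebra K M] [IsScalarTower ℂ K M]

theorem Cht.dense_ne {ι F : Type} [Fintype ι] [DecidableEq ι] [Field F] [Algebra ℂ F] (c : Cht ι F)
    {h : c.O} (h0 : h ≠ 0) : Dense {p : Pt c.O | p h ≠ 0} := by
  have := c.D.openPos
  exact Measure.dense_of_ae (c.D.ae_of_gen (c.gen_ne h0))

/-- VALUATIVE IMPLIES POINTWISE: if every valuation ring over the base field contains one of the
finite sets `G i`, then near a general fibre one of them is bounded at every point -/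
theorem Rel.cert {B : Cht δ K} (T : Rel B ν M) {I : Type} (G : I → Finset M)
    (h : ∀ O : ValuationSubring M, (∀ c : K, algebraMap K M c ∈ O) → ∃ i, ∀ g ∈ G i, g ∈ O) :
    ∃ g : B.O, g ≠ 0 ∧ ∀ b0 : Pt B.O, b0 g ≠ 0 → ∃ R : ℝ, 1 ≤ R ∧ ∀ᶠ b in 𝓝 b0, ∀ p : T.Fib b,
      (∀ i, ∀ x ∈ G i, p.1.Reg x) → ∃ i, ∀ x ∈ G i, ‖p.1.ev x‖ ≤ R := by
  obtain ⟨s, c, n, H⟩ := cover_cert (k := K) G h
  obtain ⟨g, g0, hg⟩ := exists_den B.frac c
  refine ⟨g, g0, fun b0 hb0 => ?_⟩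
  have hr : ∀ b : Pt B.O, b g ≠ 0 → ∀ a ∈ c, b.Reg a := fun b hb a ha => by
    obtain ⟨a', e⟩ := hg a ha
    exact ⟨a', g, hb, e⟩
  let Bd : ℝ := 1 + ∑ a ∈ c, ‖b0.ev a‖
  have hs : 0 ≤ ∑ a ∈ c, ‖b0.ev a‖ := Finset.sum_nonneg fun _ _ => norm_nonneg _
  have hB : 1 ≤ Bd := le_add_of_nonneg_right hs
  have h1 : ∀ᶠ b in 𝓝 b0, b g ≠ 0 := (Pt.continuous_apply g).continuousAt.eventually_ne hb0
  have h2 : ∀ᶠ b in 𝓝 b0, ∀ a ∈ c, ‖b.ev a‖ ≤ Bd := (eventually_all_finset c).2 fun a ha =>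
    ((hr b0 hb0 a ha).continuousAt.norm.eventually_lt_const (u := Bd) (by
      have := Finset.single_le_sum (f := fun a => ‖b0.ev a‖) (fun _ _ => norm_nonneg _) ha
      change _ < 1 + _
      linarith)).mono fun _ h => h.le
  refine ⟨max 1 (n * Bd ^ n), le_max_left _ _, (h1.and h2).mono fun b hb p hp => ?_⟩
  obtain ⟨i, -, hi⟩ := H p.1.cp Bd hB (fun a ha => by
    obtain ⟨h3, h4⟩ := Front.rel_const T p (hr b hb.1 a ha)
    exact ⟨h3, (congrArg norm h4).le.trans (hb.2 a ha)⟩) fun i _ => hp i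
  exact ⟨i, fun x hx => (hi x hx).trans (le_max_right _ _)⟩

namespace Dat

variable {d : Dat δ K ν M} {i0 : Fin d.r}

theorem plu_tau (d : Dat δ K ν M) (j : Fin d.r) : Plu d.T.dx d.m (d.τ j : M) :=
  (d.span _).2 (Submodule.subset_span ⟨j, rfl⟩)

/-- the volume of a bounded frame is at most `exp y` times the invariant density -/
theorem jac_le_yy (hu : IsUnit (d.τ i0)) {I : Type} [Fintype I] (f : I → ν → M) (i : I)
    (p : Pt d.T.X.O) {R : ℝ} (hR : ∀ l, ‖p.ev (f i l)‖ ≤ R) :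
    ‖p.ev (Jac d.T.dx (f i))‖ ^ 2 ≤ ((1 + R ^ 2) ^ 2) ^ Fintype.card ν *
      (Real.exp (d.yy f p) * d.Bs p ^ (d.m : ℝ)⁻¹) := by
  have hm : d.m ≠ 0 := by have := d.hm; omega
  have hB := Bs_pos hu p
  have hV := d.Vm_nonneg f p
  have h1 : (‖p.ev (Jac d.T.dx (f i))‖ ^ 2 / ∏ l, (1 + ‖p.ev (f i l)‖ ^ 2) ^ 2) ^ d.m ≤
      (Real.exp (d.yy f p) * d.Bs p ^ (d.m : ℝ)⁻¹) ^ d.m := by
    rw [exp_yy hu, Real.rpow_inv_natCast_pow (by positivity) hm]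
    refine le_trans ?_ (le_add_of_nonneg_left hB.le)
    exact Finset.single_le_sum (f := fun i => (‖p.ev (Jac d.T.dx (f i))‖ ^ 2 /
      ∏ l, (1 + ‖p.ev (f i l)‖ ^ 2) ^ 2) ^ d.m) (fun _ _ => by positivity) (Finset.mem_univ i)
  have h2 := (pow_le_pow_iff_left₀ (by positivity) (by positivity) hm).1 h1
  rw [div_le_iff₀ (by positivity), mul_comm] at h2
  refine h2.trans (mul_le_mul_of_nonneg_right ?_ (by positivity))
  rw [← Finset.card_univ, ← Finset.prod_const]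
  exact Finset.prod_le_prod (fun _ _ => by positivity) fun l _ => by
    have := hR l
    gcongr

/-- DOMINATION -/
theorem dom (Fr : Frames2 d.T.dx) (hu : IsUnit (d.τ i0)) (hf : ∀ i l, Fr.f i l ∈ d.T.X.O)
    {s : Fin Fr.N → d.T.X.O} (hs : ∀ i, s i ≠ 0) {k a : ℕ} {φ : d.T.X.O}
    (h : ∀ i O, Fr.Fk (fun j => (d.τ j : M)) d.m i O → (φ : M) / (Fr.J i ^ k * s i ^ a) ∈ O) :
    ∃ g : d.B.O, g ≠ 0 ∧ ∀ b0 : Pt d.B.O, b0 g ≠ 0 → ∃ C : ℝ, 0 ≤ C ∧ ∀ᶠ b in 𝓝 b0, ∀ p : d.T.Fib b,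
      ‖p.1 φ‖ ^ 2 ≤ (∑ i, ‖p.1 (s i)‖ ^ 2) ^ a *
        Real.exp (k / d.m * Real.log (d.Bs p.1) + C * d.yy Fr.f p.1 + C) := by
  classical
  choose N hN using fun i => Fr.krull d.plu_tau i (h i)
  obtain ⟨n, hn⟩ := (finite_range N).bddAbove
  let u : Fin Fr.N → Fin d.r → M := fun i j =>
    (φ : M) / (Fr.J i ^ k * s i ^ a) * (d.τ j / Fr.J i ^ d.m) ^ n
  obtain ⟨g, g0, hg⟩ := d.T.toRel.cert
    (fun i => Finset.univ.image (u i) ∪ Finset.univ.image (Fr.f i)) fun O hO => by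
      obtain ⟨i, hi⟩ := Fr.cover O hO
      refine ⟨i, fun x hx => hi x ?_⟩
      rcases Finset.mem_union.1 hx with hx | hx <;> obtain ⟨j, -, rfl⟩ := Finset.mem_image.1 hx
      exacts [hN i n (hn ⟨i, rfl⟩) j, Fr.mem i j]
  refine ⟨g, g0, fun b0 hb0 => ?_⟩
  obtain ⟨R, R1, hR⟩ := hg b0 hb0
  obtain ⟨V, hV, Vo, hbV⟩ := eventually_nhds_iff.1 hR
  let J : Fin Fr.N → d.T.X.O := fun i => ⟨Fr.J i, d.T.jac_mem (hf i)⟩
  have J0 : ∀ i, J i ≠ 0 := fun i h => Fr.ne i (congrArg Subtype.val h)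
  let P : ℝ := ((1 + R ^ 2) ^ 2) ^ Fintype.card ν
  let C0 : ℝ := d.r ^ n * R ^ 2 * P ^ (k + d.m * n)
  have C00 : 0 ≤ C0 := by positivity
  refine ⟨(k + d.m * n : ℕ) + C0, by positivity, ?_⟩
  have key : ∀ p : Pt d.T.X.O, p.res d.T.inc ∈ V → p (∏ i, J i * s i) ≠ 0 →
      ‖p φ‖ ^ 2 ≤ (∑ i, ‖p (s i)‖ ^ 2) ^ a * Real.exp (k / d.m * Real.log (d.Bs p) +
        ((k + d.m * n : ℕ) + C0) * d.yy Fr.f p + ((k + d.m * n : ℕ) + C0)) := fun p hp hp0 => by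
    rw [map_prod, Finset.prod_ne_zero_iff] at hp0
    have h1 : ∀ i, p (J i) ≠ 0 := fun i =>
      left_ne_zero_of_mul (map_mul p (J i) (s i) ▸ hp0 i (Finset.mem_univ i))
    have h2 : ∀ i, p (s i) ≠ 0 := fun i =>
      right_ne_zero_of_mul (map_mul p (J i) (s i) ▸ hp0 i (Finset.mem_univ i))
    have h3 : ∀ i j, p (J i ^ k * s i ^ a * (J i ^ d.m) ^ n) ≠ 0 ∧
        u i j * (J i ^ k * s i ^ a * (J i ^ d.m) ^ n : d.T.X.O) = (φ * d.τ j ^ n : d.T.X.O) :=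
      fun i j => by
        have h4 : (s i : M) ≠ 0 := fun h => hs i (Subtype.ext h)
        have h5 : Fr.J i ≠ 0 := Fr.ne i
        refine ⟨by simp only [map_mul, map_pow]; have := h1 i; have := h2 i; positivity, ?_⟩
        push_cast
        simp only [u, J, div_pow]
        field_simp
    obtain ⟨i, hi⟩ := hV _ hp ⟨p, rfl⟩ fun i x hx => by
      rcases Finset.mem_union.1 hx with hx | hx <;> obtain ⟨j, -, rfl⟩ := Finset.mem_image.1 hx
      exacts [⟨_, _, (h3 i j).1, (h3 i j).2⟩, p.reg_of_mem (hf i j)]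
    have h4 := jac_le_yy hu Fr.f i p fun l => hi _ (Finset.mem_union_right _
      (Finset.mem_image_of_mem _ (Finset.mem_univ l)))
    have : Nonempty (Fin d.r) := ⟨i0⟩
    obtain ⟨j, hj⟩ := Finite.exists_max fun j => ‖p (d.τ j)‖ ^ 2
    have h5 : d.Bs p ≤ d.r * ‖p (d.τ j)‖ ^ 2 := by
      simpa [Bs] using Finset.sum_le_card_nsmul Finset.univ _ _ fun j' _ => hj j'
    have h6 := hi _ (Finset.mem_union_left _ (Finset.mem_image_of_mem _ (Finset.mem_univ j)))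
    rw [p.ev_eq (h3 i j).1 (h3 i j).2, norm_div, div_le_iff₀ (norm_pos_iff.2 (h3 i j).1)] at h6
    simp only [map_mul, map_pow, norm_mul, norm_pow] at h6
    have h7 : p.ev (Jac d.T.dx (Fr.f i)) = p (J i) := p.ev_coe (J i)
    rw [h7] at h4
    have hB := Bs_pos hu p
    have hy := d.yy_nonneg Fr.f p
    have hm : d.m ≠ 0 := by have := d.hm; omega
    have h8 : ‖p (s i)‖ ^ 2 ≤ ∑ i, ‖p (s i)‖ ^ 2 := Finset.single_le_sum
      (f := fun i => ‖p (s i)‖ ^ 2) (fun _ _ => by positivity) (Finset.mem_univ i)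
    have h9 : (Real.exp (d.yy Fr.f p) * d.Bs p ^ (d.m : ℝ)⁻¹) ^ (k + d.m * n) =
        Real.exp (k / d.m * Real.log (d.Bs p) + (k + d.m * n : ℕ) * d.yy Fr.f p) * d.Bs p ^ n := by
      have hm' : (d.m : ℝ) ≠ 0 := Nat.cast_ne_zero.2 hm
      rw [Real.rpow_def_of_pos hB, ← Real.exp_add, ← Real.exp_nat_mul,
        ← Real.exp_log (pow_pos hB n), ← Real.exp_add, Real.log_pow]
      congr 1
      push_cast
      field_simp
      ring
    refine le_of_mul_le_mul_right ?_ (pow_pos hB n)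
    calc ‖p φ‖ ^ 2 * d.Bs p ^ n ≤ ‖p φ‖ ^ 2 * (d.r * ‖p (d.τ j)‖ ^ 2) ^ n := by gcongr
      _ = d.r ^ n * (‖p φ‖ * ‖p (d.τ j)‖ ^ n) ^ 2 := by ring
      _ ≤ d.r ^ n * (R * (‖p (J i)‖ ^ k * ‖p (s i)‖ ^ a * (‖p (J i)‖ ^ d.m) ^ n)) ^ 2 := by gcongr
      _ = d.r ^ n * R ^ 2 * (‖p (J i)‖ ^ 2) ^ (k + d.m * n) * (‖p (s i)‖ ^ 2) ^ a := by ring
      _ ≤ d.r ^ n * R ^ 2 * (P * (Real.exp (d.yy Fr.f p) * d.Bs p ^ (d.m : ℝ)⁻¹)) ^ (k + d.m * n) *
          (∑ i, ‖p (s i)‖ ^ 2) ^ a := by gcongr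
      _ = (∑ i, ‖p (s i)‖ ^ 2) ^ a * (Real.exp (k / d.m * Real.log (d.Bs p) +
          (k + d.m * n : ℕ) * d.yy Fr.f p) * C0) * d.Bs p ^ n := by
        rw [mul_pow P, h9]; ring
      _ ≤ _ := by
        gcongr
        refine (mul_le_mul_of_nonneg_left ((le_add_of_nonneg_right zero_le_one).trans
          (Real.add_one_le_exp C0)) (Real.exp_pos _).le).trans ?_
        rw [← Real.exp_add, Real.exp_le_exp]
        have : 0 ≤ C0 * d.yy Fr.f p := mul_nonneg C00 hy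
        have : (0 : ℝ) ≤ (k + d.m * n : ℕ) := Nat.cast_nonneg _
        nlinarith
  have hcl : IsClosed {p : Pt d.T.X.O | ‖p φ‖ ^ 2 ≤ (∑ i, ‖p (s i)‖ ^ 2) ^ a *
      Real.exp (k / d.m * Real.log (d.Bs p) + ((k + d.m * n : ℕ) + C0) * d.yy Fr.f p +
        ((k + d.m * n : ℕ) + C0))} := by
    have h1 := (psh_logB hu).1.cont
    have h2 := (wt_lists hu hf).1.cont
    have h3 := fun x : d.T.X.O => (Pt.continuous_apply x).norm.pow 2
    exact isClosed_le (h3 φ) (((continuous_finsetSum _ fun i _ => h3 (s i)).pow a).mul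
      (((h1.const_mul _).add (h2.const_mul _)).add continuous_const).rexp)
  refine mem_of_superset (Vo.mem_nhds hbV) fun b hb p => hcl.closure_subset ?_
  have hd := d.T.X.dense_ne (h := ∏ i, J i * s i)
    (Finset.prod_ne_zero_iff.2 fun i _ => mul_ne_zero (J0 i) (hs i))
  refine closure_mono (fun q hq => key q hq.1 hq.2)
    (hd.open_subset_closure_inter (Vo.preimage (Pt.continuous_res d.T.inc)) ?_)
  rw [mem_preimage, p.2]
  exact hb

end Dat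

end Pool.Agent.Lib.MP_5c318e_ag
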