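import Pool.Agent.Lib.MP_5c318e_ag.Dm.Dom
import Pool.Agent.Lib.MP_5c318e_ag.Sx.SDefs

/-! The conditions at the primes at infinity and at the boundary primes of the charts that are not
fixed components, and the domination of the forms that satisfy them. -/

set_option autoImplicit false
set_option linter.unusedSectionVars false

namespace Pool.Agent.Lib.MP_5c318e_ag

open MeasureTheory Set Filter Topology

variable {ν K M : Type} [Fintype ν] [DecidableEq ν] [Field K] [Algebra ℂ K] [Field M] [Algebra ℂ M]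
  [Algebra K M] [IsScalarTower ℂ K M]

namespace Dat.Geo

variable {d : Dat Unit K ν M} (G : d.Geo)

theorem cnd_exp (p : Pt d.T.X.O) :
    Real.exp (G.ph p) = ∑ x : Fin G.na × Fin G.nb, ‖p (G.ρ x.1 * G.r x.2)‖ ^ 2 :=
  Real.exp_log (zero_lt_one.trans_le (G.one p))

/-- every function grows at most like a power of the size of the generators -/
theorem cnd_grow (φ : d.T.X.O) : ∃ (c : ℕ) (u : Pt d.B.O → ℝ), Continuous u ∧ (∀ b, 0 ≤ u b) ∧
    ∀ p : Pt d.T.X.O, ‖p φ‖ ≤ u (p.res d.T.inc) * Real.exp (G.ph p) ^ c := by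
  have h1 : ∀ p, 1 ≤ Real.exp (G.ph p) := fun p => (G.cnd_exp p).symm ▸ G.one p
  have h : φ ∈ Algebra.adjoin ℂ (range d.T.inc ∪
      range fun x : Fin G.na × Fin G.nb => G.ρ x.1 * G.r x.2) := G.No.gen ▸ Algebra.mem_top
  induction h using Algebra.adjoin_induction with
  | mem x hx =>
    rcases hx with ⟨r, rfl⟩ | ⟨x, rfl⟩
    · exact ⟨0, fun b => ‖b r‖, (Pt.continuous_apply r).norm, fun _ => norm_nonneg _,
        fun p => by rw [pow_zero, mul_one]; exact le_rfl⟩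
    · refine ⟨1, fun _ => 1, continuous_const, fun _ => zero_le_one, fun p => ?_⟩
      have h2 : ‖p (G.ρ x.1 * G.r x.2)‖ ^ 2 ≤ Real.exp (G.ph p) := by
        rw [G.cnd_exp]
        exact Finset.single_le_sum (f := fun x : Fin G.na × Fin G.nb =>
          ‖p (G.ρ x.1 * G.r x.2)‖ ^ 2) (fun _ _ => by positivity) (Finset.mem_univ x)
      have h3 := h1 p
      rw [one_mul, pow_one]
      exact abs_le_of_sq_le_sq' (by nlinarith) (by linarith) |>.2
  | algebraMap a =>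
    refine ⟨0, fun _ => ‖a‖, continuous_const, fun _ => norm_nonneg _, fun p => ?_⟩
    rw [pow_zero, mul_one]
    exact (congrArg norm (p.hom.commutes a)).le
  | add x y _ _ hx hy =>
    obtain ⟨c, u, u1, u2, u3⟩ := hx
    obtain ⟨c', u', u1', u2', u3'⟩ := hy
    refine ⟨c + c', u + u', u1.add u1', fun b => add_nonneg (u2 b) (u2' b), fun p => ?_⟩
    rw [map_add, Pi.add_apply, add_mul]
    refine (norm_add_le _ _).trans (add_le_add ((u3 p).trans ?_) ((u3' p).trans ?_))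
    · exact mul_le_mul_of_nonneg_left (pow_le_pow_right₀ (h1 p) (by omega)) (u2 _)
    · exact mul_le_mul_of_nonneg_left (pow_le_pow_right₀ (h1 p) (by omega)) (u2' _)
  | mul x y _ _ hx hy =>
    obtain ⟨c, u, u1, u2, u3⟩ := hx
    obtain ⟨c', u', u1', u2', u3'⟩ := hy
    refine ⟨c + c', u * u', u1.mul u1', fun b => mul_nonneg (u2 b) (u2' b), fun p => ?_⟩
    rw [map_mul, norm_mul, Pi.mul_apply, pow_add, mul_mul_mul_comm]
    exact mul_le_mul (u3 p) (u3' p) (norm_nonneg _) ((norm_nonneg _).trans (u3 p))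

/-- a valuation ring over the base field that contains the generators contains the chart -/
theorem cnd_le {O : ValuationSubring M} (hK : ∀ c : K, algebraMap K M c ∈ O)
    (hz : ∀ x : Fin G.na × Fin G.nb, ((G.ρ x.1 * G.r x.2 : d.T.X.O) : M) ∈ O) (φ : d.T.X.O) :
    (φ : M) ∈ O := by
  have h : φ ∈ Algebra.adjoin ℂ (range d.T.inc ∪
      range fun x : Fin G.na × Fin G.nb => G.ρ x.1 * G.r x.2) := G.No.gen ▸ Algebra.mem_top
  induction h using Algebra.adjoin_induction with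
  | mem x hx =>
    rcases hx with ⟨r, rfl⟩ | ⟨x, rfl⟩
    · rw [d.T.inc_eq]; exact hK _
    · exact hz x
  | algebraMap a =>
    rw [Subalgebra.coe_algebraMap, IsScalarTower.algebraMap_apply ℂ K M]; exact hK _
  | add x y _ _ hx hy => exact add_mem hx hy
  | mul x y _ _ hx hy => exact mul_mem hx hy

/-- the sum of the squares of finitely many functions against the weight -/
theorem cnd_sum {I : Type} [Fintype I] (s : I → d.T.X.O) : ∃ c : ℕ, ∀ b0 : Pt d.B.O, ∃ C : ℝ,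
    0 ≤ C ∧ ∀ᶠ b in 𝓝 b0, ∀ p : d.T.Fib b,
      ∑ i, ‖p.1 (s i)‖ ^ 2 ≤ Real.exp (c * G.ph p.1 + C) := by
  choose c u u1 u2 u3 using fun i => G.cnd_grow (s i)
  obtain ⟨n, hn⟩ := (finite_range c).bddAbove
  refine ⟨2 * n, fun b0 => ⟨∑ i, u i b0 ^ 2 + 1, by positivity, ?_⟩⟩
  have hc : Continuous fun b => ∑ i, u i b ^ 2 := by fun_prop
  refine (hc.continuousAt.eventually_lt_const (lt_add_one _)).mono fun b hb p => ?_
  have h1 : 1 ≤ Real.exp (G.ph p.1) := (G.cnd_exp p.1).symm ▸ G.one p.1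
  calc ∑ i, ‖p.1 (s i)‖ ^ 2 ≤ ∑ i, (u i b * Real.exp (G.ph p.1) ^ n) ^ 2 :=
        Finset.sum_le_sum fun i _ => pow_le_pow_left₀ (norm_nonneg _) ((u3 i p.1).trans (by
          rw [p.2]
          exact mul_le_mul_of_nonneg_left (pow_le_pow_right₀ h1 (hn ⟨i, rfl⟩)) (u2 _ _))) 2
    _ = (∑ i, u i b ^ 2) * Real.exp ((2 * n : ℕ) * G.ph p.1) := by
        rw [Finset.sum_mul, Real.exp_nat_mul]
        exact Finset.sum_congr rfl fun i _ => by ring
    _ ≤ _ := by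
        rw [Real.exp_add, mul_comm]
        refine mul_le_mul_of_nonneg_left (hb.le.trans ?_) (Real.exp_pos _).le
        exact (le_add_of_nonneg_right zero_le_one).trans (Real.add_one_le_exp _)

open Classical in
/-- THE CONDITIONS AND THE DOMINATION -/
theorem exists_cnd (Fr : Frames2 d.T.dx) (hf : ∀ i l, Fr.f i l ∈ d.T.X.O)
    (hs : ∀ i, ∃ s : d.T.X.O, s ≠ 0 ∧ (s : M)⁻¹ ∈ Fr.A i ∧
      ∀ a j, ((G.ρ a * G.r j : d.T.X.O) : M) / s ∈ Fr.A i) (pol : G.No.DD → Prop) :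
    ∃ (np : ℕ) (c : Cnd d.T.dx (G.No.DD ⊕ Fin np)) (cd : ℕ),
      (∀ V, c.O (Sum.inl V) = V.1) ∧ (∀ V, c.J (Sum.inl V) = G.Jd V) ∧
      (∀ V, c.l (Sum.inl V) = G.No.l G.j0) ∧ (∀ V, pol V → c.w (Sum.inl V) = G.U.π V) ∧
      (∀ V, ¬ pol V → c.w (Sum.inl V) = 1) ∧ (∀ i, c.w (Sum.inr i) = 1) ∧
      (∀ i a j, (G.ρ a * G.r j : d.T.X.O) / c.l i ∈ c.O i) ∧
      (∀ i : Fin np, ∃ i1, Fr.Fk (fun j => (d.τ j : M)) d.m i1 (c.O (Sum.inr i))) ∧
      ∀ (k a j : ℕ) (φ : d.T.X.O), c.Sp k a j φ → ∃ g : d.B.O, g ≠ 0 ∧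
        ∀ b0 : Pt d.B.O, b0 g ≠ 0 → ∃ C : ℝ, ∀ᶠ b in 𝓝 b0, ∀ p : d.T.Fib b,
          ‖p.1 φ‖ ^ 2 ≤ Real.exp (G.wt k a p.1 + cd * a * G.ph p.1 + C * d.yy Fr.f p.1 + C) := by
  have : CharZero K := charZero_of_injective_algebraMap (algebraMap ℂ K).injective
  let z : Fin G.na × Fin G.nb → M := fun x => (G.ρ x.1 * G.r x.2 : d.T.X.O)
  let S : Set (Fin Fr.N × ValuationSubring M) :=
    {t | Fr.Fk (fun j => (d.τ j : M)) d.m t.1 t.2 ∧ ∃ x, z x ∉ t.2}
  have hS : S.Finite := ((finite_univ (α := Fin Fr.N)).prod (finite_iUnion fun i =>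
    finite_iUnion fun x => (Fr.pr i).fin (z x))).subset fun t ht => by
      obtain ⟨x, hx⟩ := ht.2
      exact ⟨trivial, mem_iUnion.2 ⟨t.1, mem_iUnion.2 ⟨x, ht.1.1, hx⟩⟩⟩
  obtain ⟨np, e, -, he⟩ := hS.fin_param
  have h1 : ∀ t, e t ∈ S := fun t => he.le ⟨t, rfl⟩
  have h2 : ∀ t, ∃ x, 1 < (e t).2.valuation (z x) ∧
      ∀ x', (e t).2.valuation (z x') ≤ (e t).2.valuation (z x) := fun t => by
    obtain ⟨x0, hx0⟩ := (h1 t).2
    have : Nonempty (Fin G.na × Fin G.nb) := ⟨x0⟩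
    obtain ⟨x, hx⟩ := Finite.exists_max fun x => (e t).2.valuation (z x)
    exact ⟨x, (not_le.1 (mt ((e t).2.valuation_le_one_iff _).1 hx0)).trans_le (hx x0), hx⟩
  choose x h3 h4 using h2
  have dv : ∀ (O : ValuationSubring M) (a b : M), b ≠ 0 → O.valuation a ≤ O.valuation b →
      a / b ∈ O := fun O a b hb h => by
    rw [← pow_one b, div_pow_mem_iff hb, pow_one]; exact h
  have gt : ∀ (O : ValuationSubring M) (a : M), 1 < O.valuation a → a ≠ 0 ∧ a⁻¹ ∈ O :=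
    fun O a h => by
      have h0 : a ≠ 0 := fun h0 => by rw [h0, map_zero] at h; exact not_lt_zero h
      exact ⟨h0, inv_eq_one_div a ▸ dv O 1 a h0 (by rw [map_one]; exact h.le)⟩
  have hl : ∀ V : G.No.DD, ∃ γ, 1 < γ ∧ ∀ j, V.1.valuation (G.No.l j : M) = γ := fun V => by
    obtain ⟨γ, h5, h6⟩ := V.2
    exact ⟨γ, h5, fun j => by simpa using h6 (MvPolynomial.X j) (MvPolynomial.X_ne_zero j)⟩
  have hl' : ∀ V : G.No.DD, 1 < V.1.valuation (G.No.l G.j0 : M) := fun V => by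
    obtain ⟨γ, h5, h6⟩ := hl V
    exact (h6 _).symm ▸ h5
  have hπ : ∀ V : G.No.DD, G.U.π V ≠ 0 ∧ G.U.π V ∈ V.1 := fun V =>
    ⟨by simpa using (G.U.adp V).ne_zero G.j0, by simpa using (G.U.adp V).mem G.j0⟩
  have hJ : ∀ V : G.No.DD, G.Jd V ≠ 0 := fun V =>
    d.T.toRel.dual.isFr'.jac_ne (G.U.adp V).basis.1
  let c : Cnd d.T.dx (G.No.DD ⊕ Fin np) :=
    { O := Sum.elim (fun V => V.1) fun t => (e t).2
      J := Sum.elim G.Jd fun t => Fr.J (e t).1
      l := Sum.elim (fun _ => G.No.l G.j0) fun t => z (x t)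
      w := Sum.elim (fun V => if pol V then G.U.π V else 1) fun _ => 1
      div := Sum.rec (fun V => (G.U.adp V).divisorial) fun t => (Fr.pr _).div (h1 t).1.1
      J0 := Sum.rec hJ fun t => Fr.ne _
      l0 := Sum.rec (fun V => (gt _ _ (hl' V)).1) fun t => (gt _ _ (h3 t)).1
      w0 := Sum.rec (fun V => by
        change (if pol V then G.U.π V else 1) ≠ 0
        split_ifs
        exacts [(hπ V).1, one_ne_zero]) fun _ => one_ne_zero
      wO := Sum.rec (fun V => by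
        change (if pol V then G.U.π V else 1) ∈ V.1
        split_ifs
        exacts [(hπ V).2, one_mem _]) fun _ => one_mem _
      lO := Sum.rec (fun V => (gt _ _ (hl' V)).2) fun t => (gt _ _ (h3 t)).2
      adp := Sum.rec (fun V f hf => dv _ _ _ (hJ V) ((G.U.adp V).jac_le d.T.dx hf))
        fun t f hf => by
          obtain ⟨c, i0, hc, hc'⟩ := (Fr.pr _).adp _ (h1 t).1.1
          exact dv _ _ _ (Fr.ne _) ((hc.jac_le d.T.dx hf).trans hc'.le) }
  choose s s0 s1 s2 using hs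
  obtain ⟨cd, hcd⟩ := G.cnd_sum s
  refine ⟨np, c, cd, fun _ => rfl, fun _ => rfl, fun _ => rfl, fun V h => if_pos h,
    fun V h => if_neg h, fun _ => rfl, ?_, fun t => ⟨_, (h1 t).1⟩, fun k a j φ hφ => ?_⟩
  · rintro (V | t) a j
    · obtain ⟨γ, h5, h6⟩ := hl V
      refine dv _ _ _ (gt _ _ (hl' V)).1 ((G.No.dom V.1 (fun r => ?_) ?_ γ h5.le
        (fun j => (h6 j).le) (a, j)).trans (h6 _).ge)
      · rw [d.T.inc_eq]; exact (G.U.adp V).const _
      · rw [d.T.inc_eq, ← map_inv₀]; exact (G.U.adp V).const _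
    · exact dv _ _ _ (gt _ _ (h3 t)).1 (h4 t (a, j))
  obtain ⟨g, g0, hg⟩ := Dat.dom (k := k) (a := a) (φ := φ) Fr G.τu hf s0 fun i O hO => by
    have hA := (Fr.pr i).le O hO.1
    have h5 : (s i : M) ≠ 0 := fun h => s0 i (Subtype.ext h)
    have h6 : Fr.J i ≠ 0 := Fr.ne i
    by_cases hz : ∃ x, z x ∉ O
    · obtain ⟨t, ht⟩ := he.ge (show (i, O) ∈ S from ⟨hO, hz⟩)
      have h7 : (φ : M) * 1 ^ j / (Fr.J (e t).1 ^ k * z (x t) ^ a) ∈ (e t).2 := hφ (Sum.inr t)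
      have h8 := (gt _ _ (h3 t)).1
      rw [ht] at h7
      have h9 := mul_mem h7 (pow_mem (hA _ (s2 i (x t).1 (x t).2)) a)
      change (φ : M) * 1 ^ j / (Fr.J i ^ k * z (x t) ^ a) * (z (x t) / s i) ^ a ∈ O at h9
      convert h9 using 1
      rw [div_pow, one_pow]
      field_simp
    · have hX := G.cnd_le (fun c => hA _ ((Fr.A i).algebraMap_mem c)) fun x =>
        not_not.1 fun h => hz ⟨x, h⟩
      obtain ⟨c, i0, hc, hc'⟩ := (Fr.pr i).adp O hO.1
      have h7 : 1 / Fr.J i ∈ O := dv _ _ _ h6 (by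
        rw [← jac_self (d := d.T.dx) (b := d.T.toRel.x) fun j a => by
          rw [d.T.toRel.dual.dual]; simp only [eq_comm]]
        exact (hc.jac_le d.T.dx fun l => hX _).trans hc'.le)
      have h9 := mul_mem (mul_mem (hX φ) (pow_mem h7 k)) (pow_mem (hA _ (s1 i)) a)
      convert h9 using 1
      rw [div_pow, one_pow, inv_pow]
      field_simp
  refine ⟨g, g0, fun b0 hb0 => ?_⟩
  obtain ⟨C, C0, hC⟩ := hg b0 hb0
  obtain ⟨C', C0', hC'⟩ := hcd b0
  refine ⟨C + a * C', (hC.and hC').mono fun b hb p => (hb.1 p).trans ?_⟩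
  refine (mul_le_mul_of_nonneg_right (pow_le_pow_left₀ (by positivity) (hb.2 p) a)
    (Real.exp_pos _).le).trans ?_
  rw [← Real.exp_nat_mul, ← Real.exp_add, Real.exp_le_exp, wt]
  have h5 : 0 ≤ G.ph p.1 := Real.log_nonneg (G.one p.1)
  have h6 : 0 ≤ a * C' * d.yy Fr.f p.1 := mul_nonneg (by positivity) (d.yy_nonneg Fr.f p.1)
  have h7 : 0 ≤ a * G.ph p.1 := by positivity
  nlinarith

/-- the multipliers of the charts from units that clear the denominators -/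
theorem cnd_sig {I : Type} {A : I → Subalgebra K M} (h : ∀ i, ∃ σ : d.T.X.O, IsUnit σ ∧
    (σ : M) ∈ A i ∧ ∀ φ : d.T.X.O, ∃ e : ℕ, (σ : M) ^ e * φ ∈ A i) (i : I) :
    ∃ s : d.T.X.O, s ≠ 0 ∧ (s : M)⁻¹ ∈ A i ∧
      ∀ a j, ((G.ρ a * G.r j : d.T.X.O) : M) / s ∈ A i := by
  obtain ⟨_, ⟨σ, rfl⟩, h1, h2⟩ := h i
  choose e he using fun x : Fin G.na × Fin G.nb => h2 (G.ρ x.1 * G.r x.2)
  obtain ⟨n, hn⟩ := (finite_range e).bddAbove
  have h3 : (((σ⁻¹ ^ n : d.T.X.Oˣ) : d.T.X.O) : M)⁻¹ = ((σ : d.T.X.O) : M) ^ n := by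
    refine inv_eq_of_mul_eq_one_right ?_
    rw [← Subalgebra.coe_pow, ← Subalgebra.coe_mul, ← Units.val_pow_eq_pow_val, ← Units.val_mul,
      ← mul_pow, inv_mul_cancel, one_pow, Units.val_one, Subalgebra.coe_one]
  refine ⟨(σ⁻¹ ^ n : d.T.X.Oˣ), Units.ne_zero _, h3 ▸ pow_mem h1 n, fun a j => ?_⟩
  obtain ⟨l, rfl⟩ := Nat.exists_eq_add_of_le' (hn ⟨(a, j), rfl⟩)
  rw [div_eq_mul_inv, h3, mul_comm, pow_add, mul_assoc]
  exact mul_mem (pow_mem h1 l) (he (a, j))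

end Dat.Geo

end Pool.Agent.Lib.MP_5c318e_ag
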